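import Pool.Agent.Run7.h481.SuperadditiveErgodic

namespace Pool.Agent.Results.MP_5b044e_pr.OnePlayerLimitValue

open MeasureTheory Filter Topology
open Pool.Agent.Run7.h481.SuperadditiveErgodic

section Core

variable {Γ A : Type*} [AddCommGroup Γ]

/-- position after the moves of the list (most recent first) -/
def pos (q : A → Γ) (z : Γ) : List A → Γ
  | [] => z
  | a :: h => pos q z h + q a

/-- total payoff of the moves of the list (most recent first) -/
def tot (g : Γ → A → ℝ) (q : A → Γ) (z : Γ) : List A → ℝ
  | [] => 0
  | a :: h => tot g q z h + g (pos q z h) a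

variable {g : Γ → A → ℝ} {q : A → Γ} {z : Γ} {C : ℝ}

theorem pos_eq (h : List A) : pos q z h = z + (h.map q).sum := by
  induction h with
  | nil => simp [pos]
  | cons a h ih => rw [pos, ih, List.map_cons, List.sum_cons]; abel

theorem pos_append (b a : List A) : pos q z (b ++ a) = pos q (pos q z a) b := by
  induction b with
  | nil => rfl
  | cons x b ih => rw [List.cons_append, pos, pos, ih]

theorem tot_append (b a : List A) :
    tot g q z (b ++ a) = tot g q z a + tot g q (pos q z a) b := by
  induction b with
  | nil => simp [tot]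
  | cons x b ih => rw [List.cons_append, tot, tot, ih, pos_append]; ring

theorem abs_tot_le (hg : ∀ z a, |g z a| ≤ C) (h : List A) :
    |tot g q z h| ≤ C * h.length := by
  induction h with
  | nil => simp [tot]
  | cons x b ih =>
    rw [tot, List.length_cons]
    push_cast
    calc |tot g q z b + g (pos q z b) x| ≤ |tot g q z b| + |g (pos q z b) x| := abs_add_le _ _
      _ ≤ C * b.length + C := add_le_add ih (hg _ _)
      _ = C * (b.length + 1) := by ring

theorem tot_shift {g' : Γ → A → ℝ} {v : Γ} (h : ∀ z a, g' z a = g (v + z) a) (a : List A) :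
    tot g' q z a = tot g q (v + z) a := by
  induction a with
  | nil => rfl
  | cons x b ih => rw [tot, tot, ih, h, pos_eq, pos_eq, add_assoc]

variable [Fintype A]

instance finite_rep (s : Multiset A) : Finite {a : List A // (a : Multiset A) = s} := by
  refine Set.Finite.subset (List.finite_length_eq A s.card) ?_
  intro a ha
  have h : (a : Multiset A) = s := ha
  show a.length = s.card
  rw [← h, Multiset.coe_card]

instance nonempty_rep (s : Multiset A) : Nonempty {a : List A // (a : Multiset A) = s} :=
  ⟨⟨s.toList, s.coe_toList⟩⟩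

instance finite_len (n : ℕ) : Finite {a : List A // a.length = n} :=
  List.finite_length_eq A n

instance nonempty_len [Nonempty A] (n : ℕ) : Nonempty {a : List A // a.length = n} :=
  ⟨⟨List.replicate n (Classical.arbitrary A), List.length_replicate⟩⟩

/-- best total payoff over the orderings of a multiset of moves -/
noncomputable def best (g : Γ → A → ℝ) (q : A → Γ) (z : Γ) (s : Multiset A) : ℝ :=
  ⨆ a : {a : List A // (a : Multiset A) = s}, tot g q z a.1

/-- best total payoff over `n` moves -/
noncomputable def bestN (g : Γ → A → ℝ) (q : A → Γ) (z : Γ) (n : ℕ) : ℝ :=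
  ⨆ a : {a : List A // a.length = n}, tot g q z a.1

theorem tot_le_best (a : List A) : tot g q z a ≤ best g q z (a : Multiset A) :=
  le_ciSup (f := fun a' : {a' : List A // (a' : Multiset A) = (a : Multiset A)} =>
    tot g q z a'.1) (Set.finite_range _).bddAbove ⟨a, rfl⟩

theorem exists_best (s : Multiset A) :
    ∃ a : List A, (a : Multiset A) = s ∧ best g q z s = tot g q z a := by
  obtain ⟨a, ha⟩ := exists_eq_ciSup_of_finite
    (f := fun a : {a : List A // (a : Multiset A) = s} => tot g q z a.1)
  exact ⟨a.1, a.2, ha.symm⟩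

theorem tot_le_bestN (a : List A) : tot g q z a ≤ bestN g q z a.length :=
  le_ciSup (f := fun a' : {a' : List A // a'.length = a.length} =>
    tot g q z a'.1) (Set.finite_range _).bddAbove ⟨a, rfl⟩

theorem exists_bestN [Nonempty A] (n : ℕ) :
    ∃ a : List A, a.length = n ∧ bestN g q z n = tot g q z a := by
  obtain ⟨a, ha⟩ := exists_eq_ciSup_of_finite
    (f := fun a : {a : List A // a.length = n} => tot g q z a.1)
  exact ⟨a.1, a.2, ha.symm⟩

theorem abs_best_le (hg : ∀ z a, |g z a| ≤ C) (s : Multiset A) :
    |best g q z s| ≤ C * s.card := by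
  obtain ⟨a, ha, h⟩ := exists_best (g := g) (q := q) (z := z) s
  rw [h, ← ha, Multiset.coe_card]
  exact abs_tot_le hg a

theorem best_superadd (s t : Multiset A) :
    best g q z s + best g q (z + (s.map q).sum) t ≤ best g q z (s + t) := by
  obtain ⟨a, ha, h1⟩ := exists_best (g := g) (q := q) (z := z) s
  obtain ⟨b, hb, h2⟩ := exists_best (g := g) (q := q) (z := z + (s.map q).sum) t
  have h3 := tot_le_best (g := g) (q := q) (z := z) (b ++ a)
  rw [tot_append, pos_eq] at h3
  have h4 : ((b ++ a : List A) : Multiset A) = s + t := by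
    rw [← Multiset.coe_add, ha, hb, add_comm]
  have h5 : (a.map q).sum = (s.map q).sum := by
    rw [← ha, Multiset.map_coe, Multiset.sum_coe]
  rw [h4, h5] at h3
  rw [h1, h2]
  exact h3

theorem best_shift {g' : Γ → A → ℝ} {v : Γ} (h : ∀ z a, g' z a = g (v + z) a)
    (s : Multiset A) : best g' q z s = best g q (v + z) s := by
  unfold best
  exact iSup_congr fun a => tot_shift h a.1

/-- rounding up the numbers of uses of the actions to multiples of `K` -/
theorem round_up (K : ℕ) (hK : 1 ≤ K) (s : Multiset A) :
    ∃ f : A → ℕ, (∀ R : ℕ, s.card ≤ R * K → ∀ x, f x ≤ R) ∧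
      s ≤ K • Finsupp.toMultiset (Finsupp.equivFunOnFinite.symm f) ∧
      (K • Finsupp.toMultiset (Finsupp.equivFunOnFinite.symm f)).card ≤
        s.card + Fintype.card A * K := by
  classical
  set f : A → ℕ := fun x => (s.count x + K - 1) / K with hf
  have hc : ∀ x, (Finsupp.toMultiset (Finsupp.equivFunOnFinite.symm f)).count x = f x :=
    fun x => by rw [Finsupp.count_toMultiset, Finsupp.equivFunOnFinite_symm_apply_apply]
  have hup : ∀ x, s.count x ≤ K * f x ∧ K * f x ≤ s.count x + K := by
    intro x
    have h1 := Nat.div_add_mod (s.count x + K - 1) K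
    have h2 := Nat.mod_lt (s.count x + K - 1) (show 0 < K by omega)
    have h3 : K * f x = K * ((s.count x + K - 1) / K) := rfl
    omega
  refine ⟨f, ?_, ?_, ?_⟩
  · intro R hR x
    have h1 : s.count x ≤ R * K := (Multiset.count_le_card x s).trans hR
    have h2 : f x = (s.count x + K - 1) / K := rfl
    have h3 : f x < R + 1 := by
      rw [h2, Nat.div_lt_iff_lt_mul (by omega)]
      have : (R + 1) * K = R * K + K := by ring
      omega
    omega
  · rw [Multiset.le_iff_count]
    intro x
    rw [Multiset.count_nsmul, hc]
    exact (hup x).1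
  · have h1 : ∀ m : Multiset A, ∑ x : A, m.count x = m.card := fun m =>
      Multiset.sum_count_eq_card fun a _ => Finset.mem_univ a
    rw [← h1, ← h1 s]
    calc ∑ x : A, (K • Finsupp.toMultiset (Finsupp.equivFunOnFinite.symm f)).count x
        = ∑ x : A, K * f x := Finset.sum_congr rfl fun x _ => by rw [Multiset.count_nsmul, hc]
      _ ≤ ∑ x : A, (s.count x + K) := Finset.sum_le_sum fun x _ => (hup x).2
      _ = ∑ x : A, s.count x + Fintype.card A * K := by
        rw [Finset.sum_add_distrib, Finset.sum_const, Finset.card_univ, smul_eq_mul]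

/-- one step of the upper bound -/
theorem tot_le_of_le (hg : ∀ z a, |g z a| ≤ C) (a : List A) (t : Multiset A)
    (ht : (a : Multiset A) ≤ t) : tot g q z a ≤ best g q z t + C * (t.card - a.length) := by
  classical
  obtain ⟨u, hu⟩ := Multiset.le_iff_exists_add.1 ht
  have h1 := tot_le_best (g := g) (q := q) (z := z) (u.toList ++ a)
  have h2 : ((u.toList ++ a : List A) : Multiset A) = t := by
    rw [← Multiset.coe_add, u.coe_toList, hu, add_comm]
  rw [h2, tot_append] at h1
  have h3 := (abs_le.1 (abs_tot_le (g := g) (q := q) (z := pos q z a) hg u.toList)).1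
  have h4 : t.card = a.length + u.card := by rw [hu, Multiset.card_add, Multiset.coe_card]
  rw [u.length_toList] at h3
  rw [h4]
  push_cast
  have h5 : (a.length : ℝ) + u.card - a.length = u.card := by ring
  rw [h5]
  linarith

/-- deterministic part: if all the limits with fixed proportions exist then the best average
payoff converges -/
theorem converges_of_proportions [Nonempty A] (hC : 0 ≤ C) (hg : ∀ z a, |g z a| ≤ C)
    (h : ∀ k : Multiset A, ∃ l : ℝ,
      Tendsto (fun K : ℕ => best g q z (K • k) / K) atTop (𝓝 l)) :
    ∃ l : ℝ, Tendsto (fun n : ℕ => bestN g q z n / n) atTop (𝓝 l) := by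
  classical
  choose lam hlam using h
  have hlb : ∀ k : Multiset A, |lam k| ≤ C * k.card := by
    intro k
    have h1 : ∀ K : ℕ, |best g q z (K • k) / K| ≤ C * k.card := by
      intro K
      rcases Nat.eq_zero_or_pos K with rfl | hK
      · simp; positivity
      · have hK' : (0:ℝ) < K := by exact_mod_cast hK
        rw [abs_div, abs_of_pos hK', div_le_iff₀ hK']
        have := abs_best_le (g := g) (q := q) (z := z) hg (K • k)
        rw [Multiset.card_nsmul] at this
        push_cast at this
        linarith
    exact le_of_tendsto' (hlam k).abs h1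
  have hratio : ∀ k : {k : Multiset A // k ≠ 0}, |lam k.1 / k.1.card| ≤ C := by
    intro k
    have hk : (0:ℝ) < k.1.card := by exact_mod_cast Multiset.card_pos.2 k.2
    rw [abs_div, abs_of_pos hk, div_le_iff₀ hk]
    exact hlb k.1
  have : Nonempty {k : Multiset A // k ≠ 0} :=
    ⟨⟨{Classical.arbitrary A}, Multiset.singleton_ne_zero _⟩⟩
  have hbdd : BddAbove (Set.range fun k : {k : Multiset A // k ≠ 0} => lam k.1 / k.1.card) :=
    ⟨C, by rintro _ ⟨k, rfl⟩; exact (abs_le.1 (hratio k)).2⟩
  set β : ℝ := ⨆ k : {k : Multiset A // k ≠ 0}, lam k.1 / k.1.card with hβ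
  refine ⟨β, tendsto_order.2 ⟨fun a ha => ?_, fun a ha => ?_⟩⟩
  · -- lower bound
    obtain ⟨⟨k, hk0⟩, hk⟩ := exists_lt_of_lt_ciSup ha
    have hc1 : 1 ≤ k.card := Multiset.card_pos.2 hk0
    have hc : (0:ℝ) < k.card := by exact_mod_cast hc1
    simp only at hk
    rw [lt_div_iff₀ hc] at hk
    set c : ℝ := (k.card : ℝ) with hcdef
    set η : ℝ := (lam k - a * c) / 2 with hη
    have hη0 : 0 < η := by rw [hη]; linarith
    have e1 : ∀ᶠ K : ℕ in atTop, lam k - η < best g q z (K • k) / K :=
      (tendsto_order.1 (hlam k)).1 _ (by linarith)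
    have e2 : Tendsto (fun n : ℕ => n / k.card) atTop atTop :=
      Nat.tendsto_div_const_atTop (by omega)
    have e3 := e2.eventually e1
    have e4 : ∀ᶠ n : ℕ in atTop, (|lam k - η| * c + C * c * c) / (n:ℝ) < η :=
      (tendsto_const_div_atTop_nhds_zero_nat _).eventually (gt_mem_nhds hη0)
    filter_upwards [e3, e4, eventually_ge_atTop k.card] with n e3 e4 hn
    have hn0 : (0:ℝ) < n := by exact_mod_cast (lt_of_lt_of_le hc1 hn)
    set K := n / k.card with hK
    have hK1 : 1 ≤ K := (Nat.one_le_div_iff (by omega)).2 hn
    have hK0 : (0:ℝ) < K := by exact_mod_cast hK1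
    obtain ⟨r, hr1, hr2⟩ : ∃ r, n = k.card * K + r ∧ r < k.card :=
      ⟨n % k.card, (Nat.div_add_mod n k.card).symm, Nat.mod_lt _ (by omega)⟩
    rw [lt_div_iff₀ hK0] at e3
    obtain ⟨b, hb, hbest⟩ := exists_best (g := g) (q := q) (z := z) (K • k)
    set u := List.replicate r (Classical.arbitrary A) with hu
    have h1 := tot_le_bestN (g := g) (q := q) (z := z) (u ++ b)
    have hlen : (u ++ b).length = n := by
      have : b.length = K * k.card := by
        rw [← Multiset.coe_card, hb, Multiset.card_nsmul]
      rw [List.length_append, this, hu, List.length_replicate, hr1]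
      ring
    rw [hlen, tot_append] at h1
    have h2 := (abs_le.1 (abs_tot_le (g := g) (q := q) (z := pos q z b) hg u)).1
    rw [hu, List.length_replicate, ← hu] at h2
    have hr3 : (r:ℝ) ≤ c := by rw [hcdef]; exact_mod_cast hr2.le
    have hr0 : (0:ℝ) ≤ r := Nat.cast_nonneg r
    have hnr : (n:ℝ) = c * K + r := by rw [hcdef]; exact_mod_cast hr1
    rw [lt_div_iff₀ hn0]
    rw [div_lt_iff₀ hn0] at e4
    have h3 : (lam k - η) * K - C * c ≤ bestN g q z n := by
      have : C * (r:ℝ) ≤ C * c := mul_le_mul_of_nonneg_left hr3 hC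
      linarith
    have h4 : ((lam k - η) * K - C * c) * c ≤ bestN g q z n * c :=
      mul_le_mul_of_nonneg_right h3 hc.le
    have h5 : (lam k - η) * r ≤ |lam k - η| * c :=
      (mul_le_mul_of_nonneg_right (le_abs_self _) hr0).trans
        (mul_le_mul_of_nonneg_left hr3 (abs_nonneg _))
    have h6 : a * c + η = lam k - η := by rw [hη]; ring
    have h7 : (a * n) * c < bestN g q z n * c := by
      have h8 : ((lam k - η) * K - C * c) * c = (lam k - η) * (n - r) - C * c * c := by
        rw [hnr]; ring
      rw [h8] at h4
      have h9 : (lam k - η) * (n - r) = (a * c + η) * n - (lam k - η) * r := by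
        rw [h6]; ring
      rw [h9] at h4
      nlinarith
    exact lt_of_mul_lt_mul_right h7 hc.le
  · -- upper bound
    have hε : 0 < a - β := by linarith
    set m : ℝ := (Fintype.card A : ℝ) with hm
    have hm0 : 0 ≤ m := Nat.cast_nonneg _
    set D : ℝ := |β| * m + 1 + C * m with hD
    have hD0 : 0 < D := by positivity
    obtain ⟨R, hR⟩ := exists_nat_gt (2 * D / (a - β))
    have hR0 : (0:ℝ) < R := lt_trans (by positivity) hR
    have hR1 : 1 ≤ R := by exact_mod_cast hR0
    have e1 : ∀ᶠ K : ℕ in atTop, ∀ f ∈ Fintype.piFinset (fun _ : A => Finset.range (R + 1)),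
        best g q z (K • Finsupp.toMultiset (Finsupp.equivFunOnFinite.symm f)) / K <
          lam (Finsupp.toMultiset (Finsupp.equivFunOnFinite.symm f)) + 1 := by
      rw [Filter.eventually_all_finset]
      intro f _
      exact (tendsto_order.1 (hlam _)).2 _ (by linarith)
    have e2 : Tendsto (fun n : ℕ => n / R + 1) atTop atTop :=
      tendsto_atTop_mono (fun n => Nat.le_succ (n / R))
        (Nat.tendsto_div_const_atTop (by omega))
    have e3 := e2.eventually e1
    have e4 : ∀ᶠ n : ℕ in atTop, D / (n:ℝ) < (a - β) / 2 :=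
      (tendsto_const_div_atTop_nhds_zero_nat _).eventually (gt_mem_nhds (by positivity))
    filter_upwards [e3, e4, eventually_ge_atTop 1] with n e3 e4 hn
    have hn0 : (0:ℝ) < n := by exact_mod_cast hn
    set K := n / R + 1 with hK
    have hK1 : 1 ≤ K := by rw [hK]; exact Nat.le_add_left 1 _
    have hK0 : (0:ℝ) < K := by exact_mod_cast hK1
    have hKR : n ≤ R * K := by
      have h1 := Nat.div_add_mod n R
      have h2 := Nat.mod_lt n (show 0 < R by omega)
      have h3 : R * K = R * (n / R) + R := by rw [hK]; ring
      omega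
    obtain ⟨b, hb, hbest⟩ := exists_bestN (g := g) (q := q) (z := z) n
    obtain ⟨f, hf1, hf2, hf3⟩ := round_up K hK1 (b : Multiset A)
    rw [Multiset.coe_card, hb] at hf1 hf3
    set k := Finsupp.toMultiset (Finsupp.equivFunOnFinite.symm f) with hk
    have hfm : f ∈ Fintype.piFinset (fun _ : A => Finset.range (R + 1)) := by
      rw [Fintype.mem_piFinset]
      intro x
      rw [Finset.mem_range]
      have := hf1 R hKR x
      omega
    have h1 := e3 f hfm
    rw [← hk, div_lt_iff₀ hK0] at h1
    have h2 := tot_le_of_le (q := q) (z := z) hg b _ hf2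
    have h3 : n ≤ (K • k).card := by
      have := Multiset.card_le_card hf2
      rwa [Multiset.coe_card, hb] at this
    have hk0 : k ≠ 0 := by
      intro h
      rw [h, nsmul_zero, Multiset.card_zero] at h3
      omega
    have hkc : (0:ℝ) < k.card := by exact_mod_cast Multiset.card_pos.2 hk0
    have h4 : lam k ≤ β * k.card := by
      rw [← div_le_iff₀ hkc]
      exact le_ciSup hbdd ⟨k, hk0⟩
    have h5 : ((K • k).card : ℝ) = K * k.card := by
      rw [Multiset.card_nsmul]; push_cast; ring
    have h6 : (n:ℝ) ≤ K * k.card := by rw [← h5]; exact_mod_cast h3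
    have h7 : (K:ℝ) * k.card ≤ n + m * K := by rw [← h5, hm]; exact_mod_cast hf3
    rw [hb, h5] at h2
    have h8 : β * (K * k.card - n) ≤ |β| * (m * K) := by
      calc β * (K * k.card - n) ≤ |β| * (K * k.card - n) :=
            mul_le_mul_of_nonneg_right (le_abs_self β) (by linarith)
        _ ≤ |β| * (m * K) := mul_le_mul_of_nonneg_left (by linarith) (abs_nonneg β)
    have h9 : C * (K * k.card - n) ≤ C * (m * K) :=
      mul_le_mul_of_nonneg_left (by linarith) hC
    have h10 : lam k * K ≤ β * k.card * K := mul_le_mul_of_nonneg_right h4 hK0.le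
    have h11 : bestN g q z n ≤ β * n + D * K := by
      rw [hbest, hD]
      nlinarith
    have h12 : (K:ℝ) ≤ n / R + 1 := by
      rw [hK]
      push_cast
      have := @Nat.cast_div_le ℝ _ _ _ n R
      linarith
    have h13 : D * K ≤ D * (n / R + 1) := mul_le_mul_of_nonneg_left h12 hD0.le
    have h14 : D / R < (a - β) / 2 := by
      rw [div_lt_iff₀ hε] at hR
      rw [div_lt_iff₀ hR0]
      linarith
    have h15 : D * (n / R + 1) = D / R * n + D := by
      field_simp
    rw [div_lt_iff₀ hn0] at e4 ⊢
    have h16 : D / R * n < (a - β) / 2 * n := mul_lt_mul_of_pos_right h14 hn0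
    linarith

end Core

section Random

variable {Γ A Ω : Type*} [AddCommGroup Γ] [Fintype A] [MeasurableSpace Ω] {P : Measure Ω}
  [IsProbabilityMeasure P] {C : ℝ}

theorem measurable_tot {g : Ω → Γ → A → ℝ} (hm : ∀ z a, Measurable fun ω => g ω z a)
    (q : A → Γ) (z : Γ) (a : List A) : Measurable fun ω => tot (g ω) q z a := by
  induction a with
  | nil => exact measurable_const
  | cons x b ih => exact ih.add (hm _ _)

/-- the best average payoff of a single player converges almost surely -/
theorem core [Nonempty A] (shift : Γ → Ω → Ω) (hmp : ∀ z, MeasurePreserving (shift z) P P)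
    (g : Ω → Γ → A → ℝ) (q : A → Γ) (hm : ∀ z a, Measurable fun ω => g ω z a)
    (hC : 0 ≤ C) (hb : ∀ ω z a, |g ω z a| ≤ C)
    (hstat : ∀ ω z z' a, g (shift z ω) z' a = g ω (z + z') a) (z : Γ) :
    ∀ᵐ ω ∂P, ∃ l : ℝ, Tendsto (fun n : ℕ => bestN (g ω) q z n / n) atTop (𝓝 l) := by
  have h1 : ∀ k : Multiset A, ∀ᵐ ω ∂P, ∃ l : ℝ,
      Tendsto (fun K : ℕ => best (g ω) q z (K • k) / K) atTop (𝓝 l) := by
    intro k
    have hit : ∀ (m : ℕ) (ω : Ω) (z' : Γ) (a : A),
        g ((shift (k.map q).sum)^[m] ω) z' a = g ω (m • (k.map q).sum + z') a := by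
      intro m
      induction m with
      | zero => intro ω z' a; simp
      | succ m ih =>
        intro ω z' a
        rw [Function.iterate_succ_apply, ih, hstat, succ_nsmul']
        congr 1
        abel
    refine superadditive_converges (T := shift (k.map q).sum) (C := C * k.card) (hmp _)
      (by positivity) (X := fun K ω => best (g ω) q z (K • k)) ?_ ?_ ?_
    · intro K
      unfold best
      exact Measurable.iSup fun a => measurable_tot hm q z a.1
    · intro K ω
      have := abs_best_le (q := q) (z := z) (hb ω) (K • k)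
      rw [Multiset.card_nsmul] at this
      push_cast at this
      linarith
    · intro m n ω
      have h2 := best_superadd (g := g ω) (q := q) (z := z) (m • k) (n • k)
      rw [← add_nsmul] at h2
      have h3 : best (g ((shift (k.map q).sum)^[m] ω)) q z (n • k) =
          best (g ω) q (z + ((m • k).map q).sum) (n • k) := by
        rw [best_shift (hit m ω), Multiset.map_nsmul, Multiset.sum_nsmul, add_comm]
      show best (g ω) q z (m • k) + best (g ((shift (k.map q).sum)^[m] ω)) q z (n • k) ≤ _
      rw [h3]
      exact h2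
  rw [← ae_all_iff] at h1
  filter_upwards [h1] with ω h1
  exact converges_of_proportions hC (hb ω) h1

end Random

/-- A percolation game on `ℤ^d` with action sets `I` (Player 1, maximiser) and `J` (Player 2,
minimiser): measure preserving maps `shift z`, bounded stationary random payoffs `g`, and a
transition map `q`. -/
structure PercolationGame (d : ℕ) (I J Ω : Type*) [MeasurableSpace Ω] (P : Measure Ω) where
  /-- the maps of the probability space -/
  shift : (Fin d → ℤ) → Ω → Ω
  measurePreserving_shift : ∀ z, MeasurePreserving (shift z) P P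
  shift_add : ∀ z z' ω, shift (z + z') ω = shift z (shift z' ω)
  /-- the payoffs -/
  g : Ω → (Fin d → ℤ) → I → J → ℝ
  measurable_g : ∀ z i j, Measurable fun ω => g ω z i j
  bounded_g : ∃ C : ℝ, ∀ ω z i j, |g ω z i j| ≤ C
  stationary : ∀ ω z z' i j, g (shift z ω) z' i j = g ω (z + z') i j
  /-- the transition map -/
  q : I → J → (Fin d → ℤ)

namespace PercolationGame

variable {d : ℕ} {I J Ω : Type*} [MeasurableSpace Ω] {P : Measure Ω}

/-- position after the moves of a history (most recent move first) started at `z` -/
def position (G : PercolationGame d I J Ω P) (z : Fin d → ℤ) : List (I × J) → (Fin d → ℤ)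
  | [] => z
  | a :: h => G.position z h + G.q a.1 a.2

/-- sum of the payoffs of a history (most recent move first) started at `z` -/
def total (G : PercolationGame d I J Ω P) (ω : Ω) (z : Fin d → ℤ) : List (I × J) → ℝ
  | [] => 0
  | a :: h => G.total ω z h + G.g ω (G.position z h) a.1 a.2

end PercolationGame

/-- the history after `n` stages when Player 1 uses the strategy `σ` (which sees the past
history) and Player 2 uses `ρ` (which sees the past history and the present action of
Player 1) -/
def history {I J : Type*} (σ : List (I × J) → I) (ρ : List (I × J) → I → J) :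
    ℕ → List (I × J)
  | 0 => []
  | n + 1 => (σ (history σ ρ n), ρ (history σ ρ n) (σ (history σ ρ n))) :: history σ ρ n

/-- the `n`-stage value: max-min over strategies of the average payoff -/
noncomputable def PercolationGame.value {d : ℕ} {I J Ω : Type*} [MeasurableSpace Ω]
    {P : Measure Ω} (G : PercolationGame d I J Ω P) (n : ℕ) (ω : Ω) (z : Fin d → ℤ) : ℝ :=
  ⨆ σ : List (I × J) → I, ⨅ ρ : List (I × J) → I → J, G.total ω z (history σ ρ n) / n

theorem length_history {I J : Type*} (σ : List (I × J) → I) (ρ : List (I × J) → I → J)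
    (n : ℕ) : (history σ ρ n).length = n := by
  induction n with
  | zero => rfl
  | succ n ih => rw [history, List.length_cons, ih]

theorem exists_history {I J : Type*} [Nonempty I] [Nonempty J] (a : List (I × J)) :
    ∃ (σ : List (I × J) → I) (ρ : List (I × J) → I → J), history σ ρ a.length = a := by
  classical
  set x : I × J := (Classical.arbitrary I, Classical.arbitrary J) with hx
  set F : List (I × J) → I × J := fun h => (a[a.length - 1 - h.length]?).getD x with hF
  refine ⟨fun h => (F h).1, fun h _ => (F h).2, ?_⟩
  have key : ∀ m ≤ a.length,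
      history (fun h => (F h).1) (fun h _ => (F h).2) m = a.drop (a.length - m) := by
    intro m
    induction m with
    | zero => intro _; rw [Nat.sub_zero, List.drop_length]; rfl
    | succ m ih =>
      intro hm
      rw [history, ih (by omega)]
      have h1 : a.length - (m + 1) < a.length := by omega
      have h2 : a.length - m = a.length - (m + 1) + 1 := by omega
      have h3 : F (a.drop (a.length - m)) = a[a.length - (m + 1)] := by
        rw [hF]
        simp only [List.length_drop]
        have h4 : a.length - 1 - (a.length - (a.length - m)) = a.length - (m + 1) := by omega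
        rw [h4, List.getElem?_eq_getElem h1, Option.getD_some]
      rw [List.drop_eq_getElem_cons h1, ← h2, ← h3]
  have := key a.length le_rfl
  rw [Nat.sub_self, List.drop_zero] at this
  exact this

section Values

variable {d : ℕ} {I J Ω : Type*} [MeasurableSpace Ω] {P : Measure Ω}

theorem position_eq (G : PercolationGame d I J Ω P) (z : Fin d → ℤ) (h : List (I × J)) :
    G.position z h = pos (fun a : I × J => G.q a.1 a.2) z h := by
  induction h with
  | nil => rfl
  | cons a h ih => rw [PercolationGame.position, pos, ih]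

theorem total_eq (G : PercolationGame d I J Ω P) (ω : Ω) (z : Fin d → ℤ) (h : List (I × J)) :
    G.total ω z h = tot (fun z a => G.g ω z a.1 a.2) (fun a : I × J => G.q a.1 a.2) z h := by
  induction h with
  | nil => rfl
  | cons a h ih => rw [PercolationGame.total, tot, ih, position_eq]

theorem total_neg_eq (G : PercolationGame d I J Ω P) (ω : Ω) (z : Fin d → ℤ)
    (h : List (I × J)) :
    tot (fun z a => - G.g ω z a.1 a.2) (fun a : I × J => G.q a.1 a.2) z h =
      - G.total ω z h := by
  induction h with
  | nil => simp [tot, PercolationGame.total]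
  | cons a h ih => rw [PercolationGame.total, tot, ih, position_eq]; ring

theorem value_maximiser [Fintype I] [Fintype J] [Nonempty I] [Nonempty J] (hJ : Subsingleton J)
    (G : PercolationGame d I J Ω P) (n : ℕ) (ω : Ω) (z : Fin d → ℤ) :
    G.value n ω z =
      bestN (fun z a => G.g ω z a.1 a.2) (fun a : I × J => G.q a.1 a.2) z n / n := by
  set ρ0 : List (I × J) → I → J := fun _ _ => Classical.arbitrary J with hρ0
  have hle : ∀ σ : List (I × J) → I, G.total ω z (history σ ρ0 n) / n ≤
      bestN (fun z a => G.g ω z a.1 a.2) (fun a : I × J => G.q a.1 a.2) z n / n := by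
    intro σ
    refine div_le_div_of_nonneg_right ?_ (Nat.cast_nonneg n)
    have := tot_le_bestN (g := fun z a => G.g ω z a.1 a.2)
      (q := fun a : I × J => G.q a.1 a.2) (z := z) (history σ ρ0 n)
    rwa [length_history, ← total_eq] at this
  have h1 : ∀ σ : List (I × J) → I,
      (⨅ ρ : List (I × J) → I → J, G.total ω z (history σ ρ n) / n) =
        G.total ω z (history σ ρ0 n) / n := by
    intro σ
    have : ∀ ρ : List (I × J) → I → J, G.total ω z (history σ ρ n) / n =
        G.total ω z (history σ ρ0 n) / n := fun ρ => by rw [Subsingleton.elim ρ ρ0]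
    rw [iInf_congr this, ciInf_const]
  unfold PercolationGame.value
  rw [iSup_congr h1]
  apply le_antisymm
  · exact ciSup_le hle
  · obtain ⟨a, ha, h⟩ := exists_bestN (g := fun z a => G.g ω z a.1 a.2)
      (q := fun a : I × J => G.q a.1 a.2) (z := z) n
    obtain ⟨σ, ρ, hσ⟩ := exists_history a
    rw [ha, Subsingleton.elim ρ ρ0] at hσ
    rw [h, ← total_eq]
    nth_rewrite 1 [← hσ]
    exact le_ciSup (f := fun σ => G.total ω z (history σ ρ0 n) / n)
      ⟨_, by rintro _ ⟨σ, rfl⟩; exact hle σ⟩ σ

theorem value_minimiser [Fintype I] [Fintype J] [Nonempty I] [Nonempty J] (hI : Subsingleton I)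
    (G : PercolationGame d I J Ω P) (n : ℕ) (ω : Ω) (z : Fin d → ℤ) :
    G.value n ω z =
      - (bestN (fun z a => - G.g ω z a.1 a.2) (fun a : I × J => G.q a.1 a.2) z n / n) := by
  set σ0 : List (I × J) → I := fun _ => Classical.arbitrary I with hσ0
  have hle : ∀ ρ : List (I × J) → I → J,
      - (bestN (fun z a => - G.g ω z a.1 a.2) (fun a : I × J => G.q a.1 a.2) z n / n) ≤
        G.total ω z (history σ0 ρ n) / n := by
    intro ρ
    rw [← neg_div]
    refine div_le_div_of_nonneg_right ?_ (Nat.cast_nonneg n)
    have := tot_le_bestN (g := fun z a => - G.g ω z a.1 a.2)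
      (q := fun a : I × J => G.q a.1 a.2) (z := z) (history σ0 ρ n)
    rw [length_history, total_neg_eq] at this
    linarith
  have h1 : ∀ σ : List (I × J) → I,
      (⨅ ρ : List (I × J) → I → J, G.total ω z (history σ ρ n) / n) =
        ⨅ ρ : List (I × J) → I → J, G.total ω z (history σ0 ρ n) / n := by
    intro σ
    rw [Subsingleton.elim σ σ0]
  unfold PercolationGame.value
  rw [iSup_congr h1, ciSup_const]
  apply le_antisymm
  · obtain ⟨a, ha, h⟩ := exists_bestN (g := fun z a => - G.g ω z a.1 a.2)
      (q := fun a : I × J => G.q a.1 a.2) (z := z) n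
    obtain ⟨σ, ρ, hσ⟩ := exists_history a
    rw [ha, Subsingleton.elim σ σ0] at hσ
    rw [h, total_neg_eq, neg_div, neg_neg]
    nth_rewrite 1 [← hσ]
    exact ciInf_le (f := fun ρ => G.total ω z (history σ0 ρ n) / n)
      ⟨_, by rintro _ ⟨ρ, rfl⟩; exact hle ρ⟩ ρ
  · exact le_ciInf hle

end Values

/-- **Every one-player percolation game has a limit value.** Let `G` be a percolation game on
`ℤ^d` with finite nonempty action sets, one of which is a singleton, and stationary bounded
payoffs (no independence, ergodicity or orientation is needed). Then for every starting point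
`z` the `n`-stage values `v_n(z)` converge almost surely. Moreover `v_n(z)` is the largest
(Player 2 has one action), respectively the smallest (Player 1 has one action), average payoff
over all sequences of `n` moves. -/
theorem result {d : ℕ} {I J Ω : Type*} [Fintype I] [Fintype J] [Nonempty I] [Nonempty J]
    [MeasurableSpace Ω] (P : Measure Ω) [IsProbabilityMeasure P]
    (G : PercolationGame d I J Ω P) (z : Fin d → ℤ) :
    (Subsingleton I ∨ Subsingleton J →
      ∀ᵐ ω ∂P, ∃ l : ℝ, Tendsto (fun n : ℕ => G.value n ω z) atTop (𝓝 l)) ∧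
    (Subsingleton J → ∀ (n : ℕ) (ω : Ω),
      IsGreatest {x : ℝ | ∃ h : List (I × J), h.length = n ∧ x = G.total ω z h / n}
        (G.value n ω z)) ∧
    (Subsingleton I → ∀ (n : ℕ) (ω : Ω),
      IsLeast {x : ℝ | ∃ h : List (I × J), h.length = n ∧ x = G.total ω z h / n}
        (G.value n ω z)) := by
  obtain ⟨C0, hC0⟩ := G.bounded_g
  set C := max C0 0 with hC
  have hCn : 0 ≤ C := le_max_right _ _
  have hCb : ∀ ω z i j, |G.g ω z i j| ≤ C := fun ω z i j =>
    (hC0 ω z i j).trans (le_max_left _ _)
  refine ⟨?_, ?_, ?_⟩
  · rintro (hI | hJ)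
    · have h1 := core (P := P) G.shift G.measurePreserving_shift
        (fun ω z (a : I × J) => - G.g ω z a.1 a.2) (fun a : I × J => G.q a.1 a.2)
        (fun z a => (G.measurable_g z a.1 a.2).neg) hCn
        (fun ω z a => by rw [abs_neg]; exact hCb ω z a.1 a.2)
        (fun ω z z' a => by rw [G.stationary]) z
      filter_upwards [h1] with ω h1
      obtain ⟨l, hl⟩ := h1
      refine ⟨-l, ?_⟩
      simp only [value_minimiser hI]
      exact hl.neg
    · have h1 := core (P := P) G.shift G.measurePreserving_shift
        (fun ω z (a : I × J) => G.g ω z a.1 a.2) (fun a : I × J => G.q a.1 a.2)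
        (fun z a => G.measurable_g z a.1 a.2) hCn
        (fun ω z a => hCb ω z a.1 a.2)
        (fun ω z z' a => G.stationary ω z z' a.1 a.2) z
      filter_upwards [h1] with ω h1
      obtain ⟨l, hl⟩ := h1
      refine ⟨l, ?_⟩
      simp only [value_maximiser hJ]
      exact hl
  · intro hJ n ω
    rw [value_maximiser hJ]
    constructor
    · obtain ⟨a, ha, h⟩ := exists_bestN (g := fun z a => G.g ω z a.1 a.2)
        (q := fun a : I × J => G.q a.1 a.2) (z := z) n
      exact ⟨a, ha, by rw [h, total_eq]⟩
    · rintro x ⟨a, ha, rfl⟩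
      refine div_le_div_of_nonneg_right ?_ (Nat.cast_nonneg n)
      rw [total_eq, ← ha]
      exact tot_le_bestN a
  · intro hI n ω
    rw [value_minimiser hI]
    constructor
    · obtain ⟨a, ha, h⟩ := exists_bestN (g := fun z a => - G.g ω z a.1 a.2)
        (q := fun a : I × J => G.q a.1 a.2) (z := z) n
      exact ⟨a, ha, by rw [h, total_neg_eq, neg_div, neg_neg]⟩
    · rintro x ⟨a, ha, rfl⟩
      rw [← neg_div]
      refine div_le_div_of_nonneg_right ?_ (Nat.cast_nonneg n)
      have := tot_le_bestN (g := fun z a => - G.g ω z a.1 a.2)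
        (q := fun a : I × J => G.q a.1 a.2) (z := z) a
      rw [ha, total_neg_eq] at this
      linarith

end Pool.Agent.Results.MP_5b044e_pr.OnePlayerLimitValue
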